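import Mathlib

set_option autoImplicit false

namespace Pool.Agent.Results.MP_366529_co.RotorFlip

/-- A straight-line plane drawing of a graph: the vertices are distinct points of the plane, the
edge `uv` is drawn as the segment from `pos u` to `pos v`, no vertex lies on an edge it is not an
end of, and two different edges meet only in a common end. -/
structure IsPlaneDrawing {V : Type} (G : SimpleGraph V) (pos : V → ℂ) : Prop where
  inj : Function.Injective pos
  vertex_off_edge : ∀ u v w, G.Adj u v → w ≠ u → w ≠ v → pos w ∉ segment ℝ (pos u) (pos v)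
  edge_edge : ∀ u v x y, G.Adj u v → G.Adj x y → s(u, v) ≠ s(x, y) →
    ∀ z, z ∈ segment ℝ (pos u) (pos v) → z ∈ segment ℝ (pos x) (pos y) →
      ∃ w, (w = u ∨ w = v) ∧ (w = x ∨ w = y) ∧ z = pos w

/-- The set of points of the plane covered by the drawing (vertices and edges). -/
def drawing {V : Type} (G : SimpleGraph V) (pos : V → ℂ) : Set ℂ :=
  Set.range pos ∪ {z | ∃ u v, G.Adj u v ∧ z ∈ segment ℝ (pos u) (pos v)}

/-- `x` is a vertex of attachment of the subgraph `R` of `G`: it is incident both to an edge of `R`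
and to an edge of `G` that is not in `R`. -/
def IsAttachment {V : Type} (G R : SimpleGraph V) (x : V) : Prop :=
  (∃ y, R.Adj x y) ∧ ∃ y, G.Adj x y ∧ ¬ R.Adj x y

/-- `R` is a rotor of order `n` of `G`, with vertices of attachment `v 0, ..., v (n-1)`. The
vertices of `R` are the ends of its edges (`R.support`). The disc `D` is the closed unit disc. -/
structure IsRotor {V : Type} (G R : SimpleGraph V) (n : ℕ) (v : ZMod n → V) : Prop where
  le : R ≤ G
  attach : ∀ x, IsAttachment G R x ↔ ∃ i, x = v i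
  embedded : ∃ pos : V → ℂ, IsPlaneDrawing G pos ∧
    -- `R` lies in the closed disc
    (∀ x ∈ R.support, ‖pos x‖ ≤ 1) ∧
    -- the boundary circle meets the drawing of `G` exactly in the vertices of attachment
    (∀ z : ℂ, ‖z‖ = 1 → (z ∈ drawing G pos ↔ ∃ i, z = pos (v i))) ∧
    -- the rest of `G` lies outside the disc
    (∀ x, x ∉ R.support → 1 < ‖pos x‖) ∧
    (∀ x y, G.Adj x y → ¬ R.Adj x y → ∀ z ∈ segment ℝ (pos x) (pos y), 1 ≤ ‖z‖) ∧
    -- the rotation of the disc by `2 * pi / n` induces an automorphism of `R` taking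
    -- `v i` to `v (i + 1)`
    ∃ θ : Equiv.Perm V, (∀ x y, R.Adj (θ x) (θ y) ↔ R.Adj x y) ∧
      (∀ x ∈ R.support, pos (θ x) = Complex.exp (2 * Real.pi * Complex.I / n) * pos x) ∧
      ∀ i, θ (v i) = v (i + 1)

/-- In the flipped copy of the rotor the vertex `a` of the rotor becomes the vertex `x`: the copy of
`v i` is identified with `v (-i)`, the other vertices of the rotor keep their name. -/
def Becomes {V : Type} {n : ℕ} (v : ZMod n → V) (a x : V) : Prop :=
  (∃ i, a = v i ∧ x = v (-i)) ∨ ((∀ i, a ≠ v i) ∧ x = a)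

/-- The graph obtained from `G` by flipping `R`: the edges of `R` are removed, and the reflected
copy of `R` is glued in. -/
def flipRotor {V : Type} (G R : SimpleGraph V) {n : ℕ} (v : ZMod n → V) : SimpleGraph V :=
  (G \ R) ⊔ SimpleGraph.fromRel (fun x y => ∃ a b, R.Adj a b ∧ Becomes v a x ∧ Becomes v b y)

/-! ### The example -/

inductive Vtx
  | v (i : Fin 6)
  | a (i : Fin 6)
  | m (i : Fin 6)
  | n (i : Fin 6)
  | c
  | s (j : Fin 3)
  deriving DecidableEq, Fintype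

open Vtx

def rotorEdges (τ : Fin 6 → Fin 6) : List (Vtx × Vtx) :=
  (List.finRange 6).flatMap fun i =>
    [(v (τ i), a i), (v (τ i), m i), (m i, a (i + 1)), (a i, a (i + 1)), (a i, n i), (n i, c)]

def statorEdges : List (Vtx × Vtx) :=
  [(v 1, s 0), (v 2, s 1), (v 3, s 1), (v 4, s 2), (v 5, s 2), (v 0, s 2)]

def ofEdges (l : List (Vtx × Vtx)) : SimpleGraph Vtx :=
  SimpleGraph.fromRel (fun x y => (x, y) ∈ l)

instance (l : List (Vtx × Vtx)) : DecidableRel (ofEdges l).Adj := by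
  unfold ofEdges
  intro x y
  rw [SimpleGraph.fromRel_adj]
  infer_instance

def R0 : SimpleGraph Vtx := ofEdges (rotorEdges id)
def G0 : SimpleGraph Vtx := ofEdges (rotorEdges id ++ statorEdges)
def G1 : SimpleGraph Vtx := ofEdges (rotorEdges (fun i => -i) ++ statorEdges)

instance : DecidableRel R0.Adj := inferInstanceAs (DecidableRel (ofEdges (rotorEdges id)).Adj)
instance : DecidableRel G0.Adj :=
  inferInstanceAs (DecidableRel (ofEdges (rotorEdges id ++ statorEdges)).Adj)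
instance : DecidableRel G1.Adj :=
  inferInstanceAs (DecidableRel (ofEdges (rotorEdges (fun i => -i) ++ statorEdges)).Adj)

def att : ZMod 6 → Vtx := fun i => v i


/-! ### Geometry in hexagonal coordinates -/

def coord : Vtx → ℤ × ℤ
  | v i => ![(4, 0), (0, 4), (-4, 4), (-4, 0), (0, -4), (4, -4)] i
  | a i => ![(2, 0), (0, 2), (-2, 2), (-2, 0), (0, -2), (2, -2)] i
  | m i => ![(2, 1), (-1, 3), (-3, 2), (-2, -1), (1, -3), (3, -2)] i
  | n i => ![(1, 0), (0, 1), (-1, 1), (-1, 0), (0, -1), (1, -1)] i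
  | c => (0, 0)
  | s j => ![(0, 8), (-8, 4), (12, -12)] j

noncomputable def om : ℂ := ⟨1 / 2, Real.sqrt 3 / 2⟩

noncomputable def Phi (x y : ℝ) : ℂ := ((x : ℂ) + (y : ℂ) * om) / 4

noncomputable def pos (x : Vtx) : ℂ := Phi ((coord x).1 : ℝ) ((coord x).2 : ℝ)

lemma Phi_re (x y : ℝ) : (Phi x y).re = (x + y / 2) / 4 := by
  unfold Phi om
  simp
  ring

lemma Phi_im (x y : ℝ) : (Phi x y).im = y * Real.sqrt 3 / 8 := by
  unfold Phi om
  simp
  ring

lemma Phi_inj {x y x' y' : ℝ} (h : Phi x y = Phi x' y') : x = x' ∧ y = y' := by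
  have h1 := congrArg Complex.re h
  have h2 := congrArg Complex.im h
  rw [Phi_re, Phi_re] at h1
  rw [Phi_im, Phi_im] at h2
  have h3 : (0 : ℝ) < Real.sqrt 3 := Real.sqrt_pos.2 (by norm_num)
  have h4 : y = y' := by
    have : y * Real.sqrt 3 = y' * Real.sqrt 3 := by linarith
    exact mul_right_cancel₀ h3.ne' this
  subst h4
  exact ⟨by linarith, rfl⟩

lemma Phi_norm_sq (x y : ℝ) : ‖Phi x y‖ ^ 2 = (x ^ 2 + x * y + y ^ 2) / 16 := by
  rw [Complex.sq_norm, Complex.normSq_apply, Phi_re, Phi_im]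
  have h3 : Real.sqrt 3 * Real.sqrt 3 = 3 := Real.mul_self_sqrt (by norm_num)
  have : y * Real.sqrt 3 / 8 * (y * Real.sqrt 3 / 8) = y ^ 2 * (Real.sqrt 3 * Real.sqrt 3) / 64 := by
    ring
  rw [this, h3]
  ring

lemma seg_iff (p q : ℝ × ℝ) (z : ℂ) :
    z ∈ segment ℝ (Phi p.1 p.2) (Phi q.1 q.2) ↔
      ∃ t : ℝ, 0 ≤ t ∧ t ≤ 1 ∧ z = Phi ((1 - t) * p.1 + t * q.1) ((1 - t) * p.2 + t * q.2) := by
  rw [segment_eq_image]
  constructor
  · rintro ⟨t, ⟨h0, h1⟩, rfl⟩
    refine ⟨t, h0, h1, ?_⟩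
    unfold Phi
    simp only [Complex.real_smul]
    push_cast
    ring
  · rintro ⟨t, h0, h1, rfl⟩
    refine ⟨t, ⟨h0, h1⟩, ?_⟩
    unfold Phi
    simp only [Complex.real_smul]
    push_cast
    ring

def crs (p q r : ℤ × ℤ) : ℤ := (q.1 - p.1) * (r.2 - p.2) - (q.2 - p.2) * (r.1 - p.1)

def dt (p q r : ℤ × ℤ) : ℤ := (q.1 - p.1) * r.1 + (q.2 - p.2) * r.2

def sameSide (p q r s : ℤ × ℤ) : Bool :=
  (decide (0 < crs p q r) && decide (0 < crs p q s)) ||
    (decide (crs p q r < 0) && decide (crs p q s < 0))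

def beyond (p q r s : ℤ × ℤ) : Bool :=
  (decide (dt p q p < dt p q q)) && ((decide (dt p q q < dt p q r) && decide (dt p q q < dt p q s)) ||
    (decide (dt p q r < dt p q p) && decide (dt p q s < dt p q p)))

def disjB (p q r s : ℤ × ℤ) : Bool := sameSide p q r s || sameSide r s p q || beyond p q r s

lemma sameSide_spec (p q r s : ℤ × ℤ) (h : sameSide p q r s = true) (t u : ℝ)
    (hu0 : 0 ≤ u) (hu1 : u ≤ 1)
    (h1 : (1 - t) * (p.1 : ℝ) + t * q.1 = (1 - u) * r.1 + u * s.1)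
    (h2 : (1 - t) * (p.2 : ℝ) + t * q.2 = (1 - u) * r.2 + u * s.2) : False := by
  have e0 : (1 - u) * (crs p q r : ℝ) + u * (crs p q s : ℝ) = 0 := by
    unfold crs
    push_cast
    linear_combination ((q.1 : ℝ) - p.1) * (-h2) + ((q.2 : ℝ) - p.2) * h1
  unfold sameSide at h
  simp only [Bool.or_eq_true, Bool.and_eq_true, decide_eq_true_eq] at h
  rcases h with ⟨ha, hb⟩ | ⟨ha, hb⟩
  · have ha' : (0 : ℝ) < crs p q r := by exact_mod_cast ha
    have hb' : (0 : ℝ) < crs p q s := by exact_mod_cast hb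
    rcases hu0.eq_or_lt with h0 | h0
    · rw [← h0] at e0; linarith
    · nlinarith [mul_pos h0 hb', mul_nonneg (sub_nonneg.2 hu1) ha'.le]
  · have ha' : (crs p q r : ℝ) < 0 := by exact_mod_cast ha
    have hb' : (crs p q s : ℝ) < 0 := by exact_mod_cast hb
    rcases hu0.eq_or_lt with h0 | h0
    · rw [← h0] at e0; linarith
    · nlinarith [mul_pos h0 (neg_pos.2 hb'), mul_nonneg (sub_nonneg.2 hu1) (neg_pos.2 ha').le]

lemma beyond_spec (p q r s : ℤ × ℤ) (h : beyond p q r s = true) (t u : ℝ)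
    (ht0 : 0 ≤ t) (ht1 : t ≤ 1) (hu0 : 0 ≤ u) (hu1 : u ≤ 1)
    (h1 : (1 - t) * (p.1 : ℝ) + t * q.1 = (1 - u) * r.1 + u * s.1)
    (h2 : (1 - t) * (p.2 : ℝ) + t * q.2 = (1 - u) * r.2 + u * s.2) : False := by
  have e0 : (1 - t) * (dt p q p : ℝ) + t * (dt p q q : ℝ)
      = (1 - u) * (dt p q r : ℝ) + u * (dt p q s : ℝ) := by
    unfold dt
    push_cast
    linear_combination ((q.1 : ℝ) - p.1) * h1 + ((q.2 : ℝ) - p.2) * h2
  unfold beyond at h
  simp only [Bool.or_eq_true, Bool.and_eq_true, decide_eq_true_eq] at h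
  obtain ⟨hpq, h⟩ := h
  have hpq' : (dt p q p : ℝ) < dt p q q := by exact_mod_cast hpq
  rcases h with ⟨ha, hb⟩ | ⟨ha, hb⟩
  · have ha' : (dt p q q : ℝ) < dt p q r := by exact_mod_cast ha
    have hb' : (dt p q q : ℝ) < dt p q s := by exact_mod_cast hb
    have h3 : (1 - t) * (dt p q p : ℝ) + t * (dt p q q : ℝ) ≤ dt p q q := by nlinarith
    have h4 : (dt p q q : ℝ) < (1 - u) * (dt p q r : ℝ) + u * (dt p q s : ℝ) := by
      rcases hu0.eq_or_lt with h0 | h0
      · rw [← h0]; linarith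
      · nlinarith [mul_pos h0 (sub_pos.2 hb'), mul_nonneg (sub_nonneg.2 hu1) (sub_pos.2 ha').le]
    linarith
  · have ha' : (dt p q r : ℝ) < dt p q p := by exact_mod_cast ha
    have hb' : (dt p q s : ℝ) < dt p q p := by exact_mod_cast hb
    have h3 : (dt p q p : ℝ) ≤ (1 - t) * (dt p q p : ℝ) + t * (dt p q q : ℝ) := by nlinarith
    have h4 : (1 - u) * (dt p q r : ℝ) + u * (dt p q s : ℝ) < (dt p q p : ℝ) := by
      rcases hu0.eq_or_lt with h0 | h0
      · rw [← h0]; linarith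
      · nlinarith [mul_pos h0 (sub_pos.2 hb'), mul_nonneg (sub_nonneg.2 hu1) (sub_pos.2 ha').le]
    linarith

lemma disjB_spec (p q r s : ℤ × ℤ) (h : disjB p q r s = true) (t u : ℝ)
    (ht0 : 0 ≤ t) (ht1 : t ≤ 1) (hu0 : 0 ≤ u) (hu1 : u ≤ 1)
    (h1 : (1 - t) * (p.1 : ℝ) + t * q.1 = (1 - u) * r.1 + u * s.1)
    (h2 : (1 - t) * (p.2 : ℝ) + t * q.2 = (1 - u) * r.2 + u * s.2) : False := by
  unfold disjB at h
  simp only [Bool.or_eq_true] at h
  rcases h with (h | h) | h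
  · exact sameSide_spec p q r s h t u hu0 hu1 h1 h2
  · exact sameSide_spec r s p q h u t ht0 ht1 h1.symm h2.symm
  · exact beyond_spec p q r s h t u ht0 ht1 hu0 hu1 h1 h2

/-- two segments with the common end `w` meet only in `w` -/
def shareB (w q s : ℤ × ℤ) : Bool :=
  decide (crs w q s ≠ 0) || decide ((q.1 - w.1) * (s.1 - w.1) + (q.2 - w.2) * (s.2 - w.2) < 0)

lemma shareB_spec (w q s : ℤ × ℤ) (h : shareB w q s = true) (t u : ℝ)
    (ht0 : 0 ≤ t) (hu0 : 0 ≤ u)
    (h1 : (1 - t) * (w.1 : ℝ) + t * q.1 = (1 - u) * w.1 + u * s.1)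
    (h2 : (1 - t) * (w.2 : ℝ) + t * q.2 = (1 - u) * w.2 + u * s.2) : t = 0 := by
  unfold shareB at h
  simp only [Bool.or_eq_true, decide_eq_true_eq] at h
  rcases h with h | h
  · have h' : (crs w q s : ℝ) ≠ 0 := by exact_mod_cast h
    have e : t * (crs w q s : ℝ) = 0 := by
      unfold crs
      push_cast
      linear_combination ((s.2 : ℝ) - w.2) * h1 - ((s.1 : ℝ) - w.1) * h2
    rcases mul_eq_zero.1 e with h3 | h3
    · exact h3
    · exact absurd h3 h'
  · have h' : ((q.1 : ℝ) - w.1) * (s.1 - w.1) + (q.2 - w.2) * (s.2 - w.2) < 0 := by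
      exact_mod_cast h
    have e : t * (((q.1 : ℝ) - w.1) ^ 2 + ((q.2 : ℝ) - w.2) ^ 2)
        = u * (((q.1 : ℝ) - w.1) * (s.1 - w.1) + (q.2 - w.2) * (s.2 - w.2)) := by
      linear_combination ((q.1 : ℝ) - w.1) * h1 + ((q.2 : ℝ) - w.2) * h2
    have hpos : 0 < ((q.1 : ℝ) - w.1) ^ 2 + ((q.2 : ℝ) - w.2) ^ 2 := by
      by_contra hcon
      have h5 : ((q.1 : ℝ) - w.1) ^ 2 = 0 := by nlinarith [sq_nonneg ((q.1 : ℝ) - w.1), sq_nonneg ((q.2 : ℝ) - w.2)]
      have h6 : ((q.2 : ℝ) - w.2) ^ 2 = 0 := by nlinarith [sq_nonneg ((q.1 : ℝ) - w.1), sq_nonneg ((q.2 : ℝ) - w.2)]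
      have h7 : (q.1 : ℝ) - w.1 = 0 := by simpa using h5
      have h8 : (q.2 : ℝ) - w.2 = 0 := by simpa using h6
      rw [h7, h8] at h'
      simp at h'
    by_contra ht
    have ht' : 0 < t := lt_of_le_of_ne ht0 (Ne.symm ht)
    nlinarith [mul_pos ht' hpos, mul_nonneg hu0 (neg_pos.2 h').le]

def offB (p q w : ℤ × ℤ) : Bool :=
  decide (crs p q w ≠ 0) || (decide (dt p q p < dt p q q) &&
    (decide (dt p q w < dt p q p) || decide (dt p q q < dt p q w)))

lemma offB_spec (p q w : ℤ × ℤ) (h : offB p q w = true) (t : ℝ) (ht0 : 0 ≤ t) (ht1 : t ≤ 1)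
    (h1 : (w.1 : ℝ) = (1 - t) * p.1 + t * q.1)
    (h2 : (w.2 : ℝ) = (1 - t) * p.2 + t * q.2) : False := by
  unfold offB at h
  simp only [Bool.or_eq_true, Bool.and_eq_true, decide_eq_true_eq] at h
  rcases h with h | ⟨hpq, h⟩
  · have h' : (crs p q w : ℝ) ≠ 0 := by exact_mod_cast h
    apply h'
    unfold crs
    push_cast
    linear_combination ((q.1 : ℝ) - p.1) * h2 - ((q.2 : ℝ) - p.2) * h1
  · have e0 : (dt p q w : ℝ) = (1 - t) * (dt p q p : ℝ) + t * (dt p q q : ℝ) := by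
      unfold dt
      push_cast
      linear_combination ((q.1 : ℝ) - p.1) * h1 + ((q.2 : ℝ) - p.2) * h2
    have hpq' : (dt p q p : ℝ) < dt p q q := by exact_mod_cast hpq
    rcases h with h | h
    · have h' : (dt p q w : ℝ) < dt p q p := by exact_mod_cast h
      nlinarith
    · have h' : (dt p q q : ℝ) < dt p q w := by exact_mod_cast h
      nlinarith

def allEdges : List (Vtx × Vtx) := rotorEdges id ++ statorEdges

/-- certificate that two edges meet only in common ends -/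
def edgeOK (e f : Vtx × Vtx) : Bool :=
  if e.1 = f.1 then (if e.2 = f.2 then true else shareB (coord e.1) (coord e.2) (coord f.2))
  else if e.1 = f.2 then (if e.2 = f.1 then true else shareB (coord e.1) (coord e.2) (coord f.1))
  else if e.2 = f.1 then shareB (coord e.2) (coord e.1) (coord f.2)
  else if e.2 = f.2 then shareB (coord e.2) (coord e.1) (coord f.1)
  else disjB (coord e.1) (coord e.2) (coord f.1) (coord f.2)

set_option maxRecDepth 100000 in
lemma all_edgeOK : ∀ e ∈ allEdges, ∀ f ∈ allEdges, edgeOK e f = true := by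
  decide +kernel

set_option maxRecDepth 100000 in
lemma all_offB : ∀ e ∈ allEdges, ∀ w : Vtx, w = e.1 ∨ w = e.2 ∨
    offB (coord e.1) (coord e.2) (coord w) = true := by
  decide +kernel

set_option maxRecDepth 100000 in
lemma coord_inj : ∀ x y : Vtx, coord x = coord y → x = y := by
  decide +kernel


lemma ofEdges_adj (l : List (Vtx × Vtx)) (x y : Vtx) :
    (ofEdges l).Adj x y ↔ x ≠ y ∧ ((x, y) ∈ l ∨ (y, x) ∈ l) := by
  unfold ofEdges
  rw [SimpleGraph.fromRel_adj]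

lemma share_concl (w q r : Vtx) (h : shareB (coord w) (coord q) (coord r) = true) (z : ℂ)
    (h1 : z ∈ segment ℝ (pos w) (pos q)) (h2 : z ∈ segment ℝ (pos w) (pos r)) : z = pos w := by
  have h1' := (seg_iff (((coord w).1 : ℝ), ((coord w).2 : ℝ)) (((coord q).1 : ℝ), ((coord q).2 : ℝ)) z).1 h1
  have h2' := (seg_iff (((coord w).1 : ℝ), ((coord w).2 : ℝ)) (((coord r).1 : ℝ), ((coord r).2 : ℝ)) z).1 h2
  obtain ⟨t, ht0, ht1, hz⟩ := h1'
  obtain ⟨u, hu0, hu1, hz'⟩ := h2'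
  rw [hz] at hz'
  obtain ⟨e1, e2⟩ := Phi_inj hz'
  have ht := shareB_spec _ _ _ h t u ht0 hu0 e1 e2
  rw [hz, ht]
  simp [pos]

lemma disj_concl (p q r x : Vtx) (h : disjB (coord p) (coord q) (coord r) (coord x) = true) (z : ℂ)
    (h1 : z ∈ segment ℝ (pos p) (pos q)) (h2 : z ∈ segment ℝ (pos r) (pos x)) : False := by
  have h1' := (seg_iff (((coord p).1 : ℝ), ((coord p).2 : ℝ)) (((coord q).1 : ℝ), ((coord q).2 : ℝ)) z).1 h1
  have h2' := (seg_iff (((coord r).1 : ℝ), ((coord r).2 : ℝ)) (((coord x).1 : ℝ), ((coord x).2 : ℝ)) z).1 h2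
  obtain ⟨t, ht0, ht1, hz⟩ := h1'
  obtain ⟨u, hu0, hu1, hz'⟩ := h2'
  rw [hz] at hz'
  obtain ⟨e1, e2⟩ := Phi_inj hz'
  exact disjB_spec _ _ _ _ h t u ht0 ht1 hu0 hu1 e1 e2

lemma edgeOK_spec (e f : Vtx × Vtx) (h : edgeOK e f = true) (hne : s(e.1, e.2) ≠ s(f.1, f.2))
    (z : ℂ) (h1 : z ∈ segment ℝ (pos e.1) (pos e.2)) (h2 : z ∈ segment ℝ (pos f.1) (pos f.2)) :
    ∃ w, (w = e.1 ∨ w = e.2) ∧ (w = f.1 ∨ w = f.2) ∧ z = pos w := by
  obtain ⟨e1, e2⟩ := e
  obtain ⟨f1, f2⟩ := f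
  simp only [edgeOK] at h
  simp only at h1 h2 hne ⊢
  split_ifs at h with c1 c2 c3 c4 c5 c6
  · exact absurd (by rw [c1, c2]) hne
  · subst c1
    exact ⟨e1, Or.inl rfl, Or.inl rfl, share_concl _ _ _ h z h1 h2⟩
  · exact absurd (by rw [c3, c4]; exact Sym2.eq_swap) hne
  · subst c3
    rw [segment_symm] at h2
    exact ⟨e1, Or.inl rfl, Or.inr rfl, share_concl _ _ _ h z h1 h2⟩
  · subst c5
    rw [segment_symm] at h1
    exact ⟨e2, Or.inr rfl, Or.inl rfl, share_concl _ _ _ h z h1 h2⟩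
  · subst c6
    rw [segment_symm] at h1 h2
    exact ⟨e2, Or.inr rfl, Or.inr rfl, share_concl _ _ _ h z h1 h2⟩
  · exact (disj_concl _ _ _ _ h z h1 h2).elim

lemma adj_edge (x y : Vtx) (h : G0.Adj x y) : ∃ e ∈ allEdges, s(x, y) = s(e.1, e.2) ∧
    ((x = e.1 ∧ y = e.2) ∨ (x = e.2 ∧ y = e.1)) := by
  rw [G0, ofEdges_adj] at h
  rcases h.2 with h1 | h1
  · exact ⟨(x, y), h1, rfl, Or.inl ⟨rfl, rfl⟩⟩
  · exact ⟨(y, x), h1, Sym2.eq_swap, Or.inr ⟨rfl, rfl⟩⟩

lemma pos_inj : Function.Injective pos := by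
  intro x y h
  obtain ⟨e1, e2⟩ := Phi_inj h
  apply coord_inj
  apply Prod.ext
  · exact_mod_cast e1
  · exact_mod_cast e2

lemma plane : IsPlaneDrawing G0 pos where
  inj := pos_inj
  vertex_off_edge := by
    intro x y w hadj hwx hwy hmem
    obtain ⟨e, he, -, hc⟩ := adj_edge x y hadj
    have hmem' : pos w ∈ segment ℝ (pos e.1) (pos e.2) := by
      rcases hc with ⟨h1, h2⟩ | ⟨h1, h2⟩
      · rw [← h1, ← h2]; exact hmem
      · rw [← h1, ← h2, segment_symm]; exact hmem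
    rcases all_offB e he w with h | h | h
    · rcases hc with ⟨h1, h2⟩ | ⟨h1, h2⟩
      · exact hwx (h.trans h1.symm)
      · exact hwy (h.trans h2.symm)
    · rcases hc with ⟨h1, h2⟩ | ⟨h1, h2⟩
      · exact hwy (h.trans h2.symm)
      · exact hwx (h.trans h1.symm)
    · obtain ⟨t, ht0, ht1, hz⟩ := (seg_iff (((coord e.1).1 : ℝ), ((coord e.1).2 : ℝ))
        (((coord e.2).1 : ℝ), ((coord e.2).2 : ℝ)) _).1 hmem'
      obtain ⟨e1, e2⟩ := Phi_inj hz
      exact offB_spec _ _ _ h t ht0 ht1 e1 e2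
  edge_edge := by
    intro x y x' y' h h' hne z hz hz'
    obtain ⟨e, he, hs, hc⟩ := adj_edge x y h
    obtain ⟨f, hf, hs', hc'⟩ := adj_edge x' y' h'
    rw [hs, hs'] at hne
    have h1 : z ∈ segment ℝ (pos e.1) (pos e.2) := by
      rcases hc with ⟨h1, h2⟩ | ⟨h1, h2⟩
      · rw [← h1, ← h2]; exact hz
      · rw [← h1, ← h2, segment_symm]; exact hz
    have h2 : z ∈ segment ℝ (pos f.1) (pos f.2) := by
      rcases hc' with ⟨h1, h2⟩ | ⟨h1, h2⟩
      · rw [← h1, ← h2]; exact hz'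
      · rw [← h1, ← h2, segment_symm]; exact hz'
    obtain ⟨w, hw1, hw2, hw3⟩ := edgeOK_spec e f (all_edgeOK e he f hf) hne z h1 h2
    refine ⟨w, ?_, ?_, hw3⟩
    · rcases hc with ⟨h1, h2⟩ | ⟨h1, h2⟩
      · rw [h1, h2]; exact hw1
      · rw [h1, h2]; exact hw1.symm
    · rcases hc' with ⟨h1, h2⟩ | ⟨h1, h2⟩
      · rw [h1, h2]; exact hw2
      · rw [h1, h2]; exact hw2.symm

/-! ### The disc -/

def hexn (p : ℤ × ℤ) : ℤ := p.1 ^ 2 + p.1 * p.2 + p.2 ^ 2

def hexd2 (p q : ℤ × ℤ) : ℤ := 2 * (p.1 * q.1 + p.2 * q.2) + (p.1 * q.2 + p.2 * q.1)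

lemma norm_pos_sq (x : Vtx) : ‖pos x‖ ^ 2 = (hexn (coord x) : ℝ) / 16 := by
  unfold pos hexn
  rw [Phi_norm_sq]
  push_cast
  ring

set_option maxRecDepth 100000 in
lemma d1 : ∀ x y : Vtx, R0.Adj x y → hexn (coord x) ≤ 16 := by
  decide +kernel

set_option maxRecDepth 100000 in
lemma d2 : ∀ x : Vtx, (∃ y, R0.Adj x y) ∨ 16 < hexn (coord x) := by
  decide +kernel

set_option maxRecDepth 100000 in
lemma d3 : ∀ x : Vtx, hexn (coord x) = 16 → ∃ i, x = v i := by
  decide +kernel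

set_option maxRecDepth 100000 in
lemma d4 : ∀ e ∈ rotorEdges id, hexn (coord e.1) ≤ 16 ∧ hexn (coord e.2) < 16 := by
  decide +kernel

set_option maxRecDepth 100000 in
lemma d5 : ∀ e ∈ statorEdges, hexn (coord e.1) = 16 ∧ 32 ≤ hexd2 (coord e.1) (coord e.2) := by
  decide +kernel

set_option maxRecDepth 100000 in
lemma d6 : ∀ i : Fin 6, hexn (coord (v i)) = 16 := by
  decide +kernel

lemma rotor_edge_circle (e : Vtx × Vtx) (he : e ∈ rotorEdges id) (z : ℂ)
    (hz : z ∈ segment ℝ (pos e.1) (pos e.2)) (hn : ‖z‖ = 1) : z = pos e.1 := by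
  obtain ⟨h1, h2⟩ := d4 e he
  obtain ⟨t, ht0, ht1, hz'⟩ := (seg_iff (((coord e.1).1 : ℝ), ((coord e.1).2 : ℝ))
        (((coord e.2).1 : ℝ), ((coord e.2).2 : ℝ)) _).1 hz
  have hn2 : ‖z‖ ^ 2 = 1 := by rw [hn]; norm_num
  rw [hz', Phi_norm_sq] at hn2
  have h1' : (hexn (coord e.1) : ℝ) ≤ 16 := by exact_mod_cast h1
  have h2' : (hexn (coord e.2) : ℝ) < 16 := by exact_mod_cast h2
  unfold hexn at h1' h2'
  push_cast at h1' h2'
  rcases ht0.eq_or_lt with h0 | h0
  · rw [hz', ← h0]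
    simp [pos]
  · exfalso
    set a := ((coord e.1).1 : ℝ)
    set b := ((coord e.1).2 : ℝ)
    set c := ((coord e.2).1 : ℝ)
    set d := ((coord e.2).2 : ℝ)
    have key : ((1 - t) * a + t * c) ^ 2 + ((1 - t) * a + t * c) * ((1 - t) * b + t * d)
        + ((1 - t) * b + t * d) ^ 2
        = (1 - t) * (a ^ 2 + a * b + b ^ 2) + t * (c ^ 2 + c * d + d ^ 2)
          - t * (1 - t) * ((a - c) ^ 2 + (a - c) * (b - d) + (b - d) ^ 2) := by ring
    have hq : 0 ≤ (a - c) ^ 2 + (a - c) * (b - d) + (b - d) ^ 2 := by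
      nlinarith [sq_nonneg (a - c + (b - d)), sq_nonneg (a - c), sq_nonneg (b - d)]
    have h3 : 0 ≤ t * (1 - t) * ((a - c) ^ 2 + (a - c) * (b - d) + (b - d) ^ 2) :=
      mul_nonneg (mul_nonneg ht0 (by linarith)) hq
    simp only at hn2
    rw [key] at hn2
    nlinarith [mul_pos h0 (sub_pos.2 h2'), mul_nonneg (sub_nonneg.2 ht1) (sub_nonneg.2 h1')]

lemma stator_edge_circle (e : Vtx × Vtx) (he : e ∈ statorEdges) (z : ℂ)
    (hz : z ∈ segment ℝ (pos e.1) (pos e.2)) (hn : ‖z‖ ≤ 1) : z = pos e.1 := by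
  obtain ⟨h1, h2⟩ := d5 e he
  obtain ⟨t, ht0, ht1, hz'⟩ := (seg_iff (((coord e.1).1 : ℝ), ((coord e.1).2 : ℝ))
        (((coord e.2).1 : ℝ), ((coord e.2).2 : ℝ)) _).1 hz
  have hn2 : ‖z‖ ^ 2 ≤ 1 := by nlinarith [norm_nonneg z]
  rw [hz', Phi_norm_sq] at hn2
  have h1' : (hexn (coord e.1) : ℝ) = 16 := by exact_mod_cast h1
  have h2' : (32 : ℝ) ≤ (hexd2 (coord e.1) (coord e.2) : ℝ) := by exact_mod_cast h2
  unfold hexn at h1'
  unfold hexd2 at h2'
  push_cast at h1' h2'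
  simp only at hn2
  have hpos : pos e.1 = Phi ((coord e.1).1 : ℝ) ((coord e.1).2 : ℝ) := rfl
  rw [hz', hpos]
  simp only
  set a := ((coord e.1).1 : ℝ)
  set b := ((coord e.1).2 : ℝ)
  set c := ((coord e.2).1 : ℝ)
  set d := ((coord e.2).2 : ℝ)
  -- the vector z - p in coordinates
  set X := (1 - t) * a + t * c with hX
  set Y := (1 - t) * b + t * d with hY
  have hD : 32 ≤ 2 * (a * X + b * Y) + (a * Y + b * X) := by
    have : 2 * (a * X + b * Y) + (a * Y + b * X)
        = (1 - t) * (2 * (a ^ 2 + a * b + b ^ 2)) + t * (2 * (a * c + b * d) + (a * d + b * c)) := by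
      rw [hX, hY]; ring
    rw [this, h1']
    nlinarith
  have hq : (X - a) ^ 2 + (X - a) * (Y - b) + (Y - b) ^ 2 ≤ 0 := by
    have : (X - a) ^ 2 + (X - a) * (Y - b) + (Y - b) ^ 2
        = (X ^ 2 + X * Y + Y ^ 2) - (2 * (a * X + b * Y) + (a * Y + b * X))
          + (a ^ 2 + a * b + b ^ 2) := by ring
    rw [this, h1']
    linarith
  have hXa : (X - a) ^ 2 ≤ 0 := by
    nlinarith [sq_nonneg ((X - a) + 2 * (Y - b)), sq_nonneg (X - a)]
  have hYb : (Y - b) ^ 2 ≤ 0 := by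
    nlinarith [sq_nonneg ((Y - b) + 2 * (X - a)), sq_nonneg (Y - b)]
  have e1 : X = a := by
    have : X - a = 0 := by
      have h := le_antisymm hXa (sq_nonneg _)
      simpa using h
    linarith
  have e2 : Y = b := by
    have : Y - b = 0 := by
      have h := le_antisymm hYb (sq_nonneg _)
      simpa using h
    linarith
  rw [e1, e2]

lemma om_eq : Complex.exp (2 * Real.pi * Complex.I / ((6 : ℕ) : ℂ)) = om := by
  have h : (2 * (Real.pi : ℂ) * Complex.I / ((6 : ℕ) : ℂ)) = ((Real.pi / 3 : ℝ) : ℂ) * Complex.I := by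
    push_cast
    ring
  rw [h, Complex.exp_mul_I, ← Complex.ofReal_cos, ← Complex.ofReal_sin, Real.cos_pi_div_three,
    Real.sin_pi_div_three]
  apply Complex.ext <;> simp [om]

lemma om_mul_Phi (x y : ℝ) : om * Phi x y = Phi (-y) (x + y) := by
  have h3 : Real.sqrt 3 * Real.sqrt 3 = 3 := Real.mul_self_sqrt (by norm_num)
  apply Complex.ext
  · rw [Complex.mul_re, Phi_re, Phi_im, Phi_re]
    simp only [om]
    linear_combination (-(y / 16)) * h3
  · rw [Complex.mul_im, Phi_re, Phi_im, Phi_im]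
    simp only [om]
    ring

def thetaFun : Vtx → Vtx
  | v i => v (i + 1)
  | a i => a (i + 1)
  | m i => m (i + 1)
  | n i => n (i + 1)
  | c => c
  | s j => s j

def thetaInv : Vtx → Vtx
  | v i => v (i - 1)
  | a i => a (i - 1)
  | m i => m (i - 1)
  | n i => n (i - 1)
  | c => c
  | s j => s j

def theta : Equiv.Perm Vtx where
  toFun := thetaFun
  invFun := thetaInv
  left_inv := by
    intro x
    cases x <;> simp [thetaFun, thetaInv]
  right_inv := by
    intro x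
    cases x <;> simp [thetaFun, thetaInv]

set_option maxRecDepth 100000 in
lemma d7 : ∀ x y : Vtx, R0.Adj (thetaFun x) (thetaFun y) ↔ R0.Adj x y := by
  decide +kernel

set_option maxRecDepth 100000 in
lemma d8 : ∀ x y : Vtx, R0.Adj x y →
    coord (thetaFun x) = (-(coord x).2, (coord x).1 + (coord x).2) := by
  decide +kernel

set_option maxRecDepth 100000 in
lemma d9 : ∀ x : Vtx, ((∃ y, R0.Adj x y) ∧ ∃ y, G0.Adj x y ∧ ¬ R0.Adj x y) ↔
    ∃ i : Fin 6, x = v i := by
  decide +kernel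

set_option maxRecDepth 100000 in
lemma d10 : ∀ x y : Vtx, R0.Adj x y → G0.Adj x y := by
  decide +kernel

set_option maxRecDepth 100000 in
lemma d11 : ∀ x y : Vtx, G0.Adj x y → ¬ R0.Adj x y →
    (x, y) ∈ statorEdges ∨ (y, x) ∈ statorEdges := by
  decide +kernel

lemma norm_one_iff (x : Vtx) : ‖pos x‖ = 1 ↔ hexn (coord x) = 16 := by
  have h := norm_pos_sq x
  constructor
  · intro h1
    rw [h1] at h
    have : (hexn (coord x) : ℝ) = 16 := by linarith
    exact_mod_cast this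
  · intro h1
    rw [h1] at h
    have h2 : ‖pos x‖ ^ 2 = 1 := by rw [h]; norm_num
    nlinarith [norm_nonneg (pos x)]

lemma isRotor : IsRotor G0 R0 6 att where
  le := fun x y h => d10 x y h
  attach := d9
  embedded := by
    refine ⟨pos, plane, ?_, ?_, ?_, ?_, theta, ?_, ?_, ?_⟩
    · rintro x ⟨y, hy⟩
      have h1 := d1 x y hy
      have h2 := norm_pos_sq x
      have h3 : (hexn (coord x) : ℝ) ≤ 16 := by exact_mod_cast h1
      nlinarith [norm_nonneg (pos x)]
    · intro z hz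
      constructor
      · rintro (⟨x, rfl⟩ | ⟨x, y, hadj, hmem⟩)
        · obtain ⟨i, hi⟩ := d3 x ((norm_one_iff x).1 hz)
          exact ⟨i, by rw [hi]; rfl⟩
        · obtain ⟨e, he, -, hc⟩ := adj_edge x y hadj
          have h1 : z ∈ segment ℝ (pos e.1) (pos e.2) := by
            rcases hc with ⟨h1, h2⟩ | ⟨h1, h2⟩
            · rw [← h1, ← h2]; exact hmem
            · rw [← h1, ← h2, segment_symm]; exact hmem
          have h2 : z = pos e.1 := by
            rcases List.mem_append.1 he with h | h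
            · exact rotor_edge_circle e h z h1 hz
            · exact stator_edge_circle e h z h1 hz.le
          obtain ⟨i, hi⟩ := d3 e.1 ((norm_one_iff e.1).1 (by rw [← h2]; exact hz))
          exact ⟨i, by rw [h2, hi]; rfl⟩
      · rintro ⟨i, rfl⟩
        exact Or.inl ⟨_, rfl⟩
    · intro x hx
      rcases d2 x with h | h
      · exact absurd h hx
      · have h2 := norm_pos_sq x
        have h3 : (16 : ℝ) < (hexn (coord x) : ℝ) := by exact_mod_cast h
        by_contra hcon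
        push Not at hcon
        nlinarith [norm_nonneg (pos x)]
    · intro x y hG hR z hz
      by_contra hcon
      push Not at hcon
      rcases d11 x y hG hR with h | h
      · have h1 := stator_edge_circle _ h z hz hcon.le
        have h2 := (norm_one_iff x).2 (d5 _ h).1
        simp only at h1
        rw [h1, h2] at hcon
        exact lt_irrefl _ hcon
      · rw [segment_symm] at hz
        have h1 := stator_edge_circle _ h z hz hcon.le
        have h2 := (norm_one_iff y).2 (d5 _ h).1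
        simp only at h1
        rw [h1, h2] at hcon
        exact lt_irrefl _ hcon
    · intro x y
      exact d7 x y
    · rintro x ⟨y, hy⟩
      rw [om_eq]
      have h1 := d8 x y hy
      show pos (thetaFun x) = om * pos x
      unfold pos
      rw [h1, om_mul_Phi]
      push_cast
      rfl
    · intro i
      rfl


/-! ### Flipping -/

def sigma : Vtx → Vtx
  | v i => v (-i)
  | a i => a i
  | m i => m i
  | n i => n i
  | c => c
  | s j => s j

lemma becomes_iff (x y : Vtx) : Becomes att x y ↔ y = sigma x := by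
  unfold Becomes att
  constructor
  · rintro (⟨i, h1, h2⟩ | ⟨h1, h2⟩)
    · rw [h1, h2]; rfl
    · rw [h2]
      cases x with
      | v i => exact absurd rfl (h1 i)
      | _ => rfl
  · intro h
    cases x with
    | v i => exact Or.inl ⟨i, rfl, h⟩
    | _ => exact Or.inr ⟨fun i => by simp, h⟩

lemma sigma_sigma (x : Vtx) : sigma (sigma x) = x := by
  cases x <;> simp [sigma]

set_option maxRecDepth 100000 in
lemma d12 : ∀ x y : Vtx, ((G0.Adj x y ∧ ¬ R0.Adj x y) ∨
    (x ≠ y ∧ (R0.Adj (sigma x) (sigma y) ∨ R0.Adj (sigma y) (sigma x)))) ↔ G1.Adj x y := by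
  decide +kernel

lemma flip_eq : flipRotor G0 R0 att = G1 := by
  have key : ∀ x y : Vtx, (∃ a b, R0.Adj a b ∧ Becomes att a x ∧ Becomes att b y) ↔
      R0.Adj (sigma x) (sigma y) := by
    intro x y
    constructor
    · rintro ⟨p, q, h, h1, h2⟩
      rw [becomes_iff] at h1 h2
      rw [h1, h2, sigma_sigma, sigma_sigma]
      exact h
    · intro h
      refine ⟨_, _, h, ?_, ?_⟩ <;> rw [becomes_iff, sigma_sigma]
  ext x y
  unfold flipRotor
  rw [SimpleGraph.sup_adj, SimpleGraph.sdiff_adj, SimpleGraph.fromRel_adj, key, key]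
  exact d12 x y

/-! ### Counting 3-colourings -/

def sumF (g : Fin 3 → ℕ) : ℕ := g 0 + g 1 + g 2

def av (x y : Fin 3) : ℕ := if x = y then 2 else 1

def av3 (x y z : Fin 3) : ℕ :=
  if x = y then (if y = z then 2 else 1) else (if y = z then 1 else if x = z then 1 else 0)

def ne' (x y : Fin 3) : ℕ := if x = y then 0 else 1

def wt (p q x : Fin 3) : ℕ := ne' x p * av x q

def inn (a0 a1 a2 a3 a4 a5 : Fin 3) : ℕ :=
  sumF fun z => av a0 z * av a1 z * av a2 z * av a3 z * av a4 z * av a5 z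

def out (w0 w1 w2 w3 w4 w5 : Fin 3 → ℕ) : ℕ :=
  sumF fun v0 => sumF fun v1 => sumF fun v2 => sumF fun v3 => sumF fun v4 => sumF fun v5 =>
    w0 v0 * w1 v1 * w2 v2 * w3 v3 * w4 v4 * w5 v5 * (2 * av v2 v3 * av3 v4 v5 v0)

def N0 : ℕ := sumF fun a0 => sumF fun a1 => sumF fun a2 => sumF fun a3 => sumF fun a4 => sumF fun a5 =>
  if a0 = a1 ∨ a1 = a2 ∨ a2 = a3 ∨ a3 = a4 ∨ a4 = a5 ∨ a5 = a0 then 0 else
   inn a0 a1 a2 a3 a4 a5 * out (wt a0 a1) (wt a1 a2) (wt a2 a3) (wt a3 a4) (wt a4 a5) (wt a5 a0)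

def N1 : ℕ := sumF fun a0 => sumF fun a1 => sumF fun a2 => sumF fun a3 => sumF fun a4 => sumF fun a5 =>
  if a0 = a1 ∨ a1 = a2 ∨ a2 = a3 ∨ a3 = a4 ∨ a4 = a5 ∨ a5 = a0 then 0 else
   inn a0 a1 a2 a3 a4 a5 * out (wt a0 a1) (wt a5 a0) (wt a4 a5) (wt a3 a4) (wt a2 a3) (wt a1 a2)

lemma N0_eq : N0 = 1099944 := by decide +kernel

lemma N1_eq : N1 = 1099800 := by decide +kernel

def mk (aa va : Fin 6 → Fin 3) (cc : Fin 3) (ma na : Fin 6 → Fin 3) (ss : Fin 3 → Fin 3) :
    Vtx → Fin 3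
  | v i => va i
  | a i => aa i
  | m i => ma i
  | n i => na i
  | c => cc
  | s j => ss j

def vEquiv : ((Fin 6 → Fin 3) × (Fin 6 → Fin 3) × Fin 3 × (Fin 6 → Fin 3) × (Fin 6 → Fin 3) ×
    (Fin 3 → Fin 3)) ≃ (Vtx → Fin 3) where
  toFun p := mk p.1 p.2.1 p.2.2.1 p.2.2.2.1 p.2.2.2.2.1 p.2.2.2.2.2
  invFun f := (fun i => f (a i), fun i => f (v i), f c, fun i => f (m i), fun i => f (n i),
    fun j => f (s j))
  left_inv := fun _ => rfl
  right_inv := by
    intro f
    funext x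
    cases x <;> rfl

def Good (τ : Fin 6 → Fin 6) (aa va : Fin 6 → Fin 3) (cc : Fin 3) (ma na : Fin 6 → Fin 3)
    (ss : Fin 3 → Fin 3) : Prop :=
  (∀ i, va (τ i) ≠ aa i ∧ va (τ i) ≠ ma i ∧ ma i ≠ aa (i + 1) ∧ aa i ≠ aa (i + 1) ∧
    aa i ≠ na i ∧ na i ≠ cc) ∧
  (va 1 ≠ ss 0 ∧ va 2 ≠ ss 1 ∧ va 3 ≠ ss 1 ∧ va 4 ≠ ss 2 ∧ va 5 ≠ ss 2 ∧ va 0 ≠ ss 2)

lemma proper_iff (τ : Fin 6 → Fin 6) (aa va : Fin 6 → Fin 3) (cc : Fin 3) (ma na : Fin 6 → Fin 3)
    (ss : Fin 3 → Fin 3) :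
    (∀ x y, (ofEdges (rotorEdges τ ++ statorEdges)).Adj x y →
      mk aa va cc ma na ss x ≠ mk aa va cc ma na ss y) ↔ Good τ aa va cc ma na ss := by
  have h1 : (∀ x y, (ofEdges (rotorEdges τ ++ statorEdges)).Adj x y →
      mk aa va cc ma na ss x ≠ mk aa va cc ma na ss y) ↔
      ∀ e ∈ rotorEdges τ ++ statorEdges, mk aa va cc ma na ss e.1 ≠ mk aa va cc ma na ss e.2 := by
    constructor
    · intro h e he
      have hne : e.1 ≠ e.2 := by
        rcases List.mem_append.1 he with h | h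
        · unfold rotorEdges at h
          rw [List.mem_flatMap] at h
          obtain ⟨i, -, hi⟩ := h
          simp only [List.mem_cons, List.not_mem_nil, or_false] at hi
          rcases hi with rfl | rfl | rfl | rfl | rfl | rfl <;> simp
        · unfold statorEdges at h
          simp only [List.mem_cons, List.not_mem_nil, or_false] at h
          rcases h with rfl | rfl | rfl | rfl | rfl | rfl <;> simp
      apply h
      rw [ofEdges_adj]
      exact ⟨hne, Or.inl he⟩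
    · intro h x y hadj
      rw [ofEdges_adj] at hadj
      rcases hadj.2 with h' | h'
      · exact h _ h'
      · exact (h _ h').symm
  rw [h1]
  unfold Good
  constructor
  · intro h
    constructor
    · intro i
      have hm : ∀ e ∈ [(v (τ i), a i), (v (τ i), m i), (m i, a (i + 1)), (a i, a (i + 1)),
          (a i, n i), (n i, c)], e ∈ rotorEdges τ ++ statorEdges := by
        intro e he
        apply List.mem_append_left
        unfold rotorEdges
        rw [List.mem_flatMap]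
        exact ⟨i, List.mem_finRange i, he⟩
      exact ⟨h _ (hm (v (τ i), a i) (by simp)), h _ (hm (v (τ i), m i) (by simp)),
        h _ (hm (m i, a (i + 1)) (by simp)), h _ (hm (a i, a (i + 1)) (by simp)),
        h _ (hm (a i, n i) (by simp)), h _ (hm (n i, c) (by simp))⟩
    · have hm : ∀ e ∈ statorEdges, e ∈ rotorEdges τ ++ statorEdges :=
        fun e he => List.mem_append_right _ he
      exact ⟨h _ (hm (v 1, s 0) (by simp [statorEdges])), h _ (hm (v 2, s 1) (by simp [statorEdges])),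
        h _ (hm (v 3, s 1) (by simp [statorEdges])), h _ (hm (v 4, s 2) (by simp [statorEdges])),
        h _ (hm (v 5, s 2) (by simp [statorEdges])), h _ (hm (v 0, s 2) (by simp [statorEdges]))⟩
  · rintro ⟨h, h'⟩ e he
    rcases List.mem_append.1 he with h2 | h2
    · unfold rotorEdges at h2
      rw [List.mem_flatMap] at h2
      obtain ⟨i, -, hi⟩ := h2
      obtain ⟨g1, g2, g3, g4, g5, g6⟩ := h i
      simp only [List.mem_cons, List.not_mem_nil, or_false] at hi
      rcases hi with rfl | rfl | rfl | rfl | rfl | rfl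
      · exact g1
      · exact g2
      · exact g3
      · exact g4
      · exact g5
      · exact g6
    · unfold statorEdges at h2
      obtain ⟨g1, g2, g3, g4, g5, g6⟩ := h'
      simp only [List.mem_cons, List.not_mem_nil, or_false] at h2
      rcases h2 with rfl | rfl | rfl | rfl | rfl | rfl
      · exact g1
      · exact g2
      · exact g3
      · exact g4
      · exact g5
      · exact g6

instance (τ : Fin 6 → Fin 6) (aa va : Fin 6 → Fin 3) (cc : Fin 3) (ma na : Fin 6 → Fin 3)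
    (ss : Fin 3 → Fin 3) : Decidable (Good τ aa va cc ma na ss) := by
  unfold Good
  infer_instance

lemma ne'_eq_one {x y : Fin 3} (h : x ≠ y) : ne' x y = 1 := by simp [ne', h]

lemma ne'_eq_zero {x y : Fin 3} (h : ¬ x ≠ y) : ne' x y = 0 := by
  push Not at h
  simp [ne', h]

lemma indicator (τ : Fin 6 → Fin 6) (aa va : Fin 6 → Fin 3) (cc : Fin 3) (ma na : Fin 6 → Fin 3)
    (ss : Fin 3 → Fin 3) :
    (if Good τ aa va cc ma na ss then 1 else 0) =
    (∏ i, ne' (va (τ i)) (aa i) * ne' (aa i) (aa (i + 1))) *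
      ((∏ i, ne' (va (τ i)) (ma i) * ne' (ma i) (aa (i + 1))) *
      ((∏ i, ne' (aa i) (na i) * ne' (na i) cc) *
      (ne' (va 1) (ss 0) * (ne' (va 2) (ss 1) * ne' (va 3) (ss 1)) *
        (ne' (va 4) (ss 2) * ne' (va 5) (ss 2) * ne' (va 0) (ss 2))))) := by
  by_cases h : Good τ aa va cc ma na ss
  · rw [if_pos h]
    obtain ⟨h1, h2, h3, h4, h5, h6, h7⟩ := h
    rw [ne'_eq_one h2, ne'_eq_one h3, ne'_eq_one h4, ne'_eq_one h5, ne'_eq_one h6, ne'_eq_one h7]
    have q1 : (∏ i, ne' (va (τ i)) (aa i) * ne' (aa i) (aa (i + 1))) = 1 := by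
      apply Finset.prod_eq_one
      intro i _
      rw [ne'_eq_one (h1 i).1, ne'_eq_one (h1 i).2.2.2.1, one_mul]
    have q2 : (∏ i, ne' (va (τ i)) (ma i) * ne' (ma i) (aa (i + 1))) = 1 := by
      apply Finset.prod_eq_one
      intro i _
      rw [ne'_eq_one (h1 i).2.1, ne'_eq_one (h1 i).2.2.1, one_mul]
    have q3 : (∏ i, ne' (aa i) (na i) * ne' (na i) cc) = 1 := by
      apply Finset.prod_eq_one
      intro i _
      rw [ne'_eq_one (h1 i).2.2.2.2.1, ne'_eq_one (h1 i).2.2.2.2.2, one_mul]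
    rw [q1, q2, q3]
  · rw [if_neg h]
    unfold Good at h
    symm
    by_contra hne
    apply h
    simp only [mul_ne_zero_iff, Finset.prod_ne_zero_iff] at hne
    obtain ⟨p1, p2, p3, ⟨p4, p5, p6⟩, ⟨p7, p8⟩, p9⟩ := hne
    have key : ∀ {x y : Fin 3}, ne' x y ≠ 0 → x ≠ y := by
      intro x y hxy
      intro hcon
      exact hxy (ne'_eq_zero (by simpa using hcon))
    exact ⟨fun i => ⟨key (p1 i (Finset.mem_univ i)).1, key (p2 i (Finset.mem_univ i)).1,
      key (p2 i (Finset.mem_univ i)).2, key (p1 i (Finset.mem_univ i)).2,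
      key (p3 i (Finset.mem_univ i)).1, key (p3 i (Finset.mem_univ i)).2⟩,
      key p4, key p5, key p6, key p7, key p8, key p9⟩

lemma sum_ne_ne (x y : Fin 3) : ∑ z, ne' x z * ne' z y = av x y := by
  revert x y; decide

lemma sum_ne (x : Fin 3) : ∑ z, ne' x z = 2 := by
  revert x; decide

lemma sum_ne2 (x y : Fin 3) : ∑ z, ne' x z * ne' y z = av x y := by
  revert x y; decide

lemma sum_ne3 (x y w : Fin 3) : ∑ z, ne' x z * ne' y z * ne' w z = av3 x y w := by
  revert x y w; decide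

lemma sum_pi {k : ℕ} (B : Fin k → Fin 3 → ℕ) :
    ∑ f : Fin k → Fin 3, ∏ i, B i (f i) = ∏ i, ∑ z, B i z := by
  rw [Finset.prod_univ_sum, Fintype.piFinset_univ]

lemma sum_ss (x1 x2 x3 x4 x5 x0 : Fin 3) :
    ∑ ss : Fin 3 → Fin 3, (ne' x1 (ss 0) * (ne' x2 (ss 1) * ne' x3 (ss 1)) *
        (ne' x4 (ss 2) * ne' x5 (ss 2) * ne' x0 (ss 2))) = 2 * av x2 x3 * av3 x4 x5 x0 := by
  have h := sum_pi (k := 3) (fun i z => ![ne' x1 z, ne' x2 z * ne' x3 z,
    ne' x4 z * ne' x5 z * ne' x0 z] i)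
  simp only [Fin.prod_univ_three, Matrix.cons_val_zero, Matrix.cons_val_one,
    Matrix.cons_val_two, Matrix.head_cons, Matrix.tail_cons] at h
  rw [sum_ne, sum_ne2] at h
  rw [sum_ne3] at h
  exact h

lemma sum_all (τ : Fin 6 → Fin 6) (aa va : Fin 6 → Fin 3) (cc : Fin 3) :
    ∑ ma : Fin 6 → Fin 3, ∑ na : Fin 6 → Fin 3, ∑ ss : Fin 3 → Fin 3,
      (if Good τ aa va cc ma na ss then 1 else 0) =
    (∏ i, ne' (va (τ i)) (aa i) * ne' (aa i) (aa (i + 1))) *
      ((∏ i, av (va (τ i)) (aa (i + 1))) * ((∏ i, av (aa i) cc) *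
        (2 * av (va 2) (va 3) * av3 (va 4) (va 5) (va 0)))) := by
  simp_rw [indicator, ← Finset.mul_sum, sum_ss]
  simp_rw [← Finset.sum_mul]
  rw [sum_pi (fun i z => ne' (va (τ i)) z * ne' z (aa (i + 1))),
    sum_pi (fun i z => ne' (aa i) z * ne' z cc)]
  simp only [sum_ne_ne]


lemma sum_fin_fun (F : (Fin 6 → Fin 3) → ℕ) : ∑ f, F f =
    sumF fun x0 => sumF fun x1 => sumF fun x2 => sumF fun x3 => sumF fun x4 => sumF fun x5 =>
      F ![x0, x1, x2, x3, x4, x5] := by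
  have step : ∀ (k : ℕ) (H : (Fin (k + 1) → Fin 3) → ℕ),
      ∑ f, H f = sumF fun x => ∑ g : Fin k → Fin 3, H (Matrix.vecCons x g) := by
    intro k H
    rw [← (Fin.consEquiv (fun _ => Fin 3)).sum_comp, Fintype.sum_prod_type, Fin.sum_univ_three]
    rfl
  simp_rw [step]
  simp only [Finset.univ_unique, Finset.sum_singleton]
  rfl

lemma sum_fin3 (H : Fin 3 → ℕ) : ∑ x, H x = sumF H := Fin.sum_univ_three H

lemma card_eq (τ : Fin 6 → Fin 6) :
    Nat.card ((ofEdges (rotorEdges τ ++ statorEdges)).Coloring (Fin 3)) =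
      ∑ aa : Fin 6 → Fin 3, ∑ va : Fin 6 → Fin 3, ∑ cc : Fin 3,
      (∏ i, ne' (va (τ i)) (aa i) * ne' (aa i) (aa (i + 1))) *
      ((∏ i, av (va (τ i)) (aa (i + 1))) * ((∏ i, av (aa i) cc) *
        (2 * av (va 2) (va 3) * av3 (va 4) (va 5) (va 0)))) := by
  classical
  have e1 : ((ofEdges (rotorEdges τ ++ statorEdges)).Coloring (Fin 3)) ≃
      {f : Vtx → Fin 3 // ∀ x y, (ofEdges (rotorEdges τ ++ statorEdges)).Adj x y → f x ≠ f y} :=
    { toFun := fun C => ⟨fun x => C x, fun x y h => C.valid h⟩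
      invFun := fun f => SimpleGraph.Coloring.mk f.1 (fun {x y} h => f.2 x y h)
      left_inv := fun C => by ext x; rfl
      right_inv := fun f => by ext x; rfl }
  rw [Nat.card_congr e1, Nat.card_eq_fintype_card, Fintype.card_subtype, Finset.card_filter,
    ← vEquiv.sum_comp, Fintype.sum_prod_type]
  refine Finset.sum_congr rfl fun aa _ => ?_
  rw [Fintype.sum_prod_type]
  refine Finset.sum_congr rfl fun va _ => ?_
  rw [Fintype.sum_prod_type]
  refine Finset.sum_congr rfl fun cc _ => ?_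
  rw [← sum_all, Fintype.sum_prod_type]
  refine Finset.sum_congr rfl fun ma _ => ?_
  rw [Fintype.sum_prod_type]
  refine Finset.sum_congr rfl fun na _ => ?_
  refine Finset.sum_congr rfl fun ss _ => ?_
  have := proper_iff τ aa va cc ma na ss
  by_cases hg : Good τ aa va cc ma na ss
  · rw [if_pos hg, if_pos]
    exact this.2 hg
  · rw [if_neg hg, if_neg]
    exact fun h => hg (this.1 h)


lemma regroup (τ : Fin 6 → Fin 6) (aa : Fin 6 → Fin 3) :
    (∑ va : Fin 6 → Fin 3, ∑ cc : Fin 3,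
      (∏ i, ne' (va (τ i)) (aa i) * ne' (aa i) (aa (i + 1))) *
      ((∏ i, av (va (τ i)) (aa (i + 1))) * ((∏ i, av (aa i) cc) *
        (2 * av (va 2) (va 3) * av3 (va 4) (va 5) (va 0))))) =
    (∏ i, ne' (aa i) (aa (i + 1))) * ((∑ cc : Fin 3, ∏ i, av (aa i) cc) *
      (∑ va : Fin 6 → Fin 3, (∏ i, wt (aa i) (aa (i + 1)) (va (τ i))) *
        (2 * av (va 2) (va 3) * av3 (va 4) (va 5) (va 0)))) := by
  have h : ∀ (va : Fin 6 → Fin 3) (cc : Fin 3),
      (∏ i, ne' (va (τ i)) (aa i) * ne' (aa i) (aa (i + 1))) *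
      ((∏ i, av (va (τ i)) (aa (i + 1))) * ((∏ i, av (aa i) cc) *
        (2 * av (va 2) (va 3) * av3 (va 4) (va 5) (va 0)))) =
      (∏ i, ne' (aa i) (aa (i + 1))) * ((∏ i, av (aa i) cc) *
        ((∏ i, wt (aa i) (aa (i + 1)) (va (τ i))) *
          (2 * av (va 2) (va 3) * av3 (va 4) (va 5) (va 0)))) := by
    intro va cc
    simp only [wt, Finset.prod_mul_distrib]
    ring
  simp_rw [h, ← Finset.mul_sum, ← Finset.sum_mul, ← Finset.mul_sum]

lemma leaf_eq (a0 a1 a2 a3 a4 a5 : Fin 3) (X : ℕ) :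
    ne' a0 a1 * ne' a1 a2 * ne' a2 a3 * ne' a3 a4 * ne' a4 a5 * ne' a5 a0 * X =
    if a0 = a1 ∨ a1 = a2 ∨ a2 = a3 ∨ a3 = a4 ∨ a4 = a5 ∨ a5 = a0 then 0 else X := by
  split_ifs with h
  · rcases h with h | h | h | h | h | h <;> simp [ne', h]
  · push Not at h
    obtain ⟨h1, h2, h3, h4, h5, h6⟩ := h
    simp [ne', h1, h2, h3, h4, h5, h6]

lemma count0 : Nat.card (G0.Coloring (Fin 3)) = 1099944 := by
  rw [← N0_eq]
  have h := card_eq id
  simp_rw [regroup, sum_fin_fun, sum_fin3, Fin.prod_univ_six] at h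
  unfold G0
  rw [h]
  unfold N0 inn out
  simp_rw [← leaf_eq]
  rfl

lemma count1 : Nat.card (G1.Coloring (Fin 3)) = 1099800 := by
  rw [← N1_eq]
  have h := card_eq (fun i => -i)
  simp_rw [regroup, sum_fin_fun, sum_fin3, Fin.prod_univ_six] at h
  unfold G1
  rw [h]
  unfold N1 inn out
  simp_rw [← leaf_eq]
  have key : ∀ (w0 w1 w2 w3 w4 w5 : Fin 3 → ℕ) (v0 v1 v2 v3 v4 v5 : Fin 3) (D : ℕ),
      w0 v0 * w1 v5 * w2 v4 * w3 v3 * w4 v2 * w5 v1 * D
      = w0 v0 * w5 v1 * w4 v2 * w3 v3 * w2 v4 * w1 v5 * D := by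
    intros
    ring
  have key2 : ∀ (a0 a1 a2 a3 a4 a5 v0 v1 v2 v3 v4 v5 : Fin 3),
      wt a0 a1 v0 * wt a5 a0 v1 * wt a4 a5 v2 * wt a3 a4 v3 * wt a2 a3 v4 * wt a1 a2 v5 *
        (2 * av v2 v3 * av3 v4 v5 v0)
      = wt a0 a1 v0 * wt a1 a2 v5 * wt a2 a3 v4 * wt a3 a4 v3 * wt a4 a5 v2 * wt a5 a0 v1 *
        (2 * av v2 v3 * av3 v4 v5 v0) := by
    intros
    ring
  simp_rw [key2]
  rfl

/-- **Flipping a rotor can change the chromatic polynomial of a planar graph.** There are a planar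
graph `G` (given by a straight-line plane drawing) and a rotor `R` of order 6 of `G` such that `G`
and the graph obtained from it by flipping `R` have different numbers of proper 3-colourings. -/
theorem result : ∃ (V : Type) (_ : Finite V) (G R : SimpleGraph V) (v : ZMod 6 → V),
    IsRotor G R 6 v ∧
    ∃ k : ℕ, 0 < k ∧
      Nat.card ((flipRotor G R v).Coloring (Fin k)) ≠ Nat.card (G.Coloring (Fin k)) := by
  refine ⟨Vtx, inferInstance, G0, R0, att, isRotor, 3, by norm_num, ?_⟩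
  rw [flip_eq, count0, count1]
  norm_num

end Pool.Agent.Results.MP_366529_co.RotorFlip
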